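import Mathlib
import Pool.Agent.Q210.BR.Defs

/-!
# The set of fixed points of an irreducible branching random walk is finite or uncountable
-/

open Filter Topology Set MeasureTheory
open scoped ENNReal
open Pool.Agent.H632R3.Branch Pool.Agent.Q210.BR

namespace Pool.Agent.Results.MP_2fa7ec_pr.FixedDichotomy

noncomputable section

variable {X : Type}

/-- Irreducibility: started from one particle at `x`, with positive probability some generation
has a particle at `y`. -/
def Irreducible (μ : X → PMF (X →₀ ℕ)) : Prop :=
  ∀ x y : X, 0 < (law μ) {ω | ∃ n, pop x ω n y ≠ 0}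

/-- The vector of global extinction probabilities: all large generations are empty. -/
def qbar (μ : X → PMF (X →₀ ℕ)) : X → ℝ := fun x =>
  (law μ).real {ω | ∀ᶠ n in atTop, pop x ω n = 0}

/-- The set of fixed points of the generating function `gen μ` in `[0,1]^X`. -/
def F (μ : X → PMF (X →₀ ℕ)) : Set (X → ℝ) := {z | (∀ x, 0 ≤ z x ∧ z x ≤ 1) ∧ gen μ z = z}

/-- For every irreducible branching random walk, the set `F_G` of fixed points of the generating
function either equals `{q̄, 1}` or has the cardinality of the continuum. -/
theorem result (X : Type) [Countable X] (μ : X → PMF (X →₀ ℕ)) (hirr : Irreducible μ) :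
    F μ = {qbar μ, 1} ∨ Cardinal.mk (F μ) = Cardinal.continuum := by
  by_cases hcard : Cardinal.mk (F μ) = Cardinal.continuum
  · exact Or.inr hcard
  left
  have hF : F μ = FixG μ := rfl
  rw [hF] at hcard
  have hq : qbar μ = beta μ univ := by
    funext x
    show (law μ).real _ = (law μ).real (Dev x univ)
    congr 1
    rw [← ev_zero_eq x univ]
    ext ω
    simp only [mem_ofPred_eq, count_eq_zero, mem_univ, true_imp_iff]
    constructor
    · intro h
      exact h.mono fun n hn y => by rw [hn]; rfl
    · intro h
      exact h.mono fun n hn => Finsupp.ext hn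
  have hcase : ∀ s ∈ FixG μ, s = qbar μ ∨ s = 1 := by
    intro s hs
    by_cases h1 : ∃ x, s x = 1
    · obtain ⟨x, hx⟩ := h1
      exact Or.inr (funext fun y => desc_one μ hs hx (hirr x y))
    · left
      push Not at h1
      have h2 : {y | s y < 1} = univ := by
        ext y
        simp only [mem_ofPred_eq, mem_univ, iff_true]
        exact lt_of_le_of_ne (hs.1 y).2 (h1 y)
      have h3 := eq_beta μ hcard hs
      rw [h2] at h3
      rw [hq]
      exact h3
  refine Subset.antisymm (fun s hs => ?_) ?_
  · rcases hcase s hs with h | h
    · exact Or.inl h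
    · exact Or.inr h
  · rintro s (h | h)
    · rw [h, hF, hq]; exact beta_mem μ univ
    · rw [h]; exact one_mem μ

end

end Pool.Agent.Results.MP_2fa7ec_pr.FixedDichotomy
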